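import Mathlib
import Pool.Agent.Y591.JR.Main

set_option autoImplicit false

namespace Pool.Agent.Results.MP_033923_lc.RandomizedNoAlgorithm

open Pool.Agent.H688R2.JIT Pool.Agent.Y591.JR
open scoped ENNReal

/-- **Negative answer to Q1 (total deviation) for randomized algorithms with bounded error which
access the penalties by evaluation.**

A randomized algorithm is given by a probability distribution on deterministic algorithms
(preparation and query procedure; everything except the evaluations is free) for every number of
models and every demand vector.

1. For every countable family of randomized algorithms there are four symmetric admissible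
   penalties (one of them differs from `x ^ 2` by at most `1 / 10`, the other three are equal to
   `x ^ 2`) such that for every algorithm of the family, every `c` and every `ε > 0` there is a
   demand vector `d`, with sum `D`, on which
   * the probability that the models returned for the positions `1, …, D` are those of one optimal
     sequence, with at most `c (n + log₂ D + 1) ^ c` evaluations in the preparation and in each
     query, is at most `1 / 2 + ε`;
   * if the expected numbers of evaluations in the preparation and in each query are at most
     `c (n + log₂ D + 1) ^ c`, then the probability that the models returned for the positions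
     `1, …, D` are those of one optimal sequence is at most `1 / 2 + ε`.
2. In particular there is no randomized algorithm which for all admissible penalties and all demand
   vectors makes expected numbers of evaluations polynomial in `n` and `log D`, in the preparation
   and in each query, and represents an optimal sequence with probability at least `p`, for any
   constant `p > 1 / 2`.  (Deterministic algorithms are the case of one-point distributions, with
   probability `0` or `1`.) -/
theorem result :
    (∀ R : ℕ → RandAlgorithm, ∃ F : Fin 4 → ℝ → ℝ,
      (∀ i, Admissible (F i) ∧ ∀ x, F i (-x) = F i x) ∧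
      (∀ i, i ≠ 0 → F i = fun x => x ^ 2) ∧ (∀ x, |F 0 x - x ^ 2| ≤ 1 / 10) ∧
      ∀ (m c : ℕ) (ε : ℝ≥0∞), 0 < ε → ∃ d : Fin 4 → ℕ, (∀ i, 0 < d i) ∧
        successProb (R m 4 d) F d c ≤ 1 / 2 + ε ∧
        (EfficientOn (R m 4 d) F d c → correctProb (R m 4 d) F d ≤ 1 / 2 + ε)) ∧
    ¬ ∃ (R : RandAlgorithm) (c : ℕ) (p : ℝ≥0∞), 1 / 2 < p ∧
      ∀ (n : ℕ) (F : Fin n → ℝ → ℝ) (d : Fin n → ℕ), 0 < n → (∀ i, Admissible (F i)) →
        (∀ i, 0 < d i) → EfficientOn (R n d) F d c ∧ p ≤ correctProb (R n d) F d := by
  refine ⟨random_main, ?_⟩
  rintro ⟨R, c, p, hp, h⟩
  obtain ⟨F, hF, -, -, hF2⟩ := random_main (fun _ => R)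
  have h0 : 0 < p - 1 / 2 := tsub_pos_of_lt hp
  obtain ⟨ε, hε1, hε2⟩ := ENNReal.lt_iff_exists_nnreal_btwn.1 h0
  obtain ⟨d, hd, -, hs⟩ := hF2 0 c ε (by exact_mod_cast hε1)
  obtain ⟨h1, h2⟩ := h 4 F d (by norm_num) (fun i => (hF i).1) hd
  have h3 := h2.trans (hs h1)
  have h4 : 1 / 2 + (ε : ℝ≥0∞) < p := by
    rw [add_comm]
    exact lt_tsub_iff_right.1 hε2
  exact absurd h3 (not_le.2 h4)

end Pool.Agent.Results.MP_033923_lc.RandomizedNoAlgorithm
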